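import Pool.Agent.H97.FIN.All

/-!
# The noise sensitivity threshold in geometric last-passage percolation

For every `p` in `(0, 1)` the last passage time `T_n` from `(0, 0)` to `(n, n)` in the i.i.d.
geometric(`p`) environment is noise sensitive under the resampling of the sites at every scale
`t ≫ n ^ (-1/3)`, with a quantitative bound valid for all `n ≥ 2` and all `t > 0`.

This file states the result in the words of the problem, with its own definitions; the proof
is in `Pool/Agent/H97/FIN/All.lean` and the files it imports.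
-/

open MeasureTheory ProbabilityTheory Filter Topology
open scoped ENNReal

namespace Pool.Agent.Results.MP_57ddd5_pr.NoiseSensitivity

/-- `x 0, x 1, ..., x m` is a directed path from `u` to `v` in the square lattice. -/
def IsDirPath (u v : ℤ × ℤ) (m : ℕ) (x : ℕ → ℤ × ℤ) : Prop :=
  x 0 = u ∧ x m = v ∧ ∀ i, i < m → x (i + 1) - x i = (1, 0) ∨ x (i + 1) - x i = (0, 1)

/-- The last passage time from `u` to `v`: the maximum over the directed paths from `u` to `v`
of the sum of the weights of the sites of the path (both end points included). -/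
noncomputable def lpt (ω : ℤ × ℤ → ℕ) (u v : ℤ × ℤ) : ℝ :=
  sSup {s | ∃ (m : ℕ) (x : ℕ → ℤ × ℤ), IsDirPath u v m x ∧
    s = ∑ i ∈ Finset.range (m + 1), (ω (x i) : ℝ)}

/-- `T_n`, the last passage time from `(0, 0)` to `(n, n)`. -/
noncomputable def Tn (n : ℕ) (ω : ℤ × ℤ → ℕ) : ℝ := lpt ω (0, 0) (n, n)

/-- The geometric law with parameter `p`: the mass of `k` is `p (1 - p) ^ k`
(for `0 < p < 1`). -/
noncomputable def geomLaw (p : ℝ) : Measure ℕ :=
  Measure.sum (fun k : ℕ => ENNReal.ofReal (p * (1 - p) ^ k) • Measure.dirac k)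

/-- The law of the indicator of resampling: `true` with probability `1 - exp (-t)` and
`false` with probability `exp (-t)` (for `t ≥ 0`). -/
noncomputable def flagLaw (t : ℝ) : Measure Bool :=
  ENNReal.ofReal (1 - Real.exp (-t)) • Measure.dirac true +
    ENNReal.ofReal (Real.exp (-t)) • Measure.dirac false

/-- The law of the family of the triples `(ω x, ω' x, B x)`, `x` in `ℤ × ℤ`: the triples are
i.i.d. over the sites `x`, and the three entries of a triple are independent, `ω x` and `ω' x`
being geometric(`p`) and `B x` having the law `flagLaw t`. -/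
noncomputable def noiseLaw (p t : ℝ) : Measure (ℤ × ℤ → ℕ × ℕ × Bool) :=
  Measure.infinitePi (fun _ => (geomLaw p).prod ((geomLaw p).prod (flagLaw t)))

/-- The original environment `ω`. -/
def om (F : ℤ × ℤ → ℕ × ℕ × Bool) : ℤ × ℤ → ℕ := fun x => (F x).1

/-- The environment after the resampling: `ω' x` at the sites `x` with `B x = true` and `ω x`
at the other sites. -/
def omNoisy (F : ℤ × ℤ → ℕ × ℕ × Bool) : ℤ × ℤ → ℕ :=
  fun x => if (F x).2.2 = true then (F x).2.1 else (F x).1

/-- The Pearson correlation of `X` and `Y` under `μ`. -/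
noncomputable def corr {Ω : Type*} [MeasurableSpace Ω] (X Y : Ω → ℝ) (μ : Measure Ω) : ℝ :=
  cov[X, Y; μ] / (√(Var[X; μ]) * √(Var[Y; μ]))

/-- The correlation of `T_n` in the original environment and in the environment obtained by
resampling each site with probability `1 - exp (-t)`. -/
noncomputable def corrT (p t : ℝ) (n : ℕ) : ℝ :=
  corr (fun F => Tn n (om F)) (fun F => Tn n (omNoisy F)) (noiseLaw p t)

/-- The statement of the problem for the parameter `p`. -/
def NoiseSensitive (p : ℝ) : Prop :=
  ∀ t : ℕ → ℝ, (∀ n, 0 < t n) →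
    Tendsto (fun n : ℕ => (n : ℝ) ^ ((1 : ℝ) / 3) * t n) atTop atTop →
    Tendsto (fun n : ℕ => corrT p (t n) n) atTop (𝓝 0)

theorem geomLaw_eq {p : ℝ} (hp0 : 0 < p) (hp1 : p < 1) :
    geomLaw p = Pool.Agent.H99.NS.geo (1 - p) := by
  unfold geomLaw Pool.Agent.H99.NS.geo
  rw [if_pos ⟨by linarith, by linarith⟩, sub_sub_cancel]

theorem flagLaw_eq {t : ℝ} (ht : 0 ≤ t) : flagLaw t = Pool.Agent.H97.NF.bern t := by
  unfold flagLaw Pool.Agent.H97.NF.bern
  rw [if_pos ht]

theorem corrT_eq {p t : ℝ} (hp0 : 0 < p) (hp1 : p < 1) (ht : 0 ≤ t) (n : ℕ) :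
    corrT p t n = Pool.Agent.H97.NF.corrT p t n := by
  have h : noiseLaw p t = Pool.Agent.H97.NF.noiseLaw p t := by
    unfold noiseLaw Pool.Agent.H97.NF.noiseLaw
    rw [geomLaw_eq hp0 hp1, flagLaw_eq ht]
  unfold corrT Pool.Agent.H97.NF.corrT
  rw [h]
  rfl

/-- For every `p` in `(0, 1)`:

* for every sequence `t n > 0` with `n ^ (1/3) * t n → ∞` the correlation of `T_n` in the
  original environment and in the environment obtained by resampling each site with
  probability `1 - exp (- t n)` tends to `0`;
* quantitatively, there is a constant `C` such that for all `n ≥ 2` and all `t > 0` this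
  correlation lies between `0` and `C / (1 + max (0, log (n ^ (1/3) * min (t, 1))))`
  (this implies the first point). -/
theorem result (p : ℝ) (hp0 : 0 < p) (hp1 : p < 1) :
    NoiseSensitive p ∧
    ∃ C : ℝ, ∀ n : ℕ, 2 ≤ n → ∀ t : ℝ, 0 < t →
      0 ≤ corrT p t n ∧
      corrT p t n ≤ C / (1 + max 0 (Real.log ((n : ℝ) ^ ((1 : ℝ) / 3) * min t 1))) := by
  obtain ⟨h1, C, h2⟩ := Pool.Agent.H97.FIN.main p hp0 hp1
  refine ⟨fun t ht hlim => ?_, C, fun n hn t ht => ?_⟩
  · simpa only [corrT_eq hp0 hp1 (ht _).le] using h1 t ht hlim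
  · rw [corrT_eq hp0 hp1 ht.le]
    exact h2 n hn t ht

end Pool.Agent.Results.MP_57ddd5_pr.NoiseSensitivity
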